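import Pool.Agent.H84.BD.TRA

/-! CVA: convolution of non-negative functions (board bdc_modules). -/

open MeasureTheory
open scoped ENNReal NNReal

namespace Pool.Agent.H84.BD

open Pool.Agent.H93.BD

theorem meas_cv {m : ℕ} {u k : X m → ℝ≥0∞} (hu : Measurable u) (hk : Measurable k) :
    Measurable (fun z : X m × X m => u z.2 * k (z.1 - z.2)) := by
  have h1 : Measurable (fun z : X m × X m => z.1 - z.2) := measurable_fst.sub measurable_snd
  exact (hu.comp measurable_snd).mul (hk.comp h1)

theorem pf_CVA : T_CVA := by
  intro m u k l hu hk hl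
  have := haarX m
  have hcomm : ∀ (u k : X m → ℝ≥0∞) (x : X m), cv u k x = cv k u x := by
    intro u k x
    unfold cv
    rw [← lintegral_sub_left_eq_self (fun z => k z * u (x - z)) x]
    refine lintegral_congr fun z => ?_
    rw [sub_sub_cancel, mul_comm]
  have hmeas : ∀ {u k : X m → ℝ≥0∞}, Measurable u → Measurable k → Measurable (cv u k) := by
    intro u k hu hk
    exact Measurable.lintegral_prod_right' (meas_cv hu hk)
  refine ⟨hcomm u k, ?_, hmeas hu hk, ?_⟩
  · intro x
    -- `∫_z (∫_y u y k(z-y)) l(x-z) = ∫_y u y ∫_z k(z-y) l(x-z)`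
    unfold cv
    have h1 : ∀ z, (∫⁻ y, u y * k (z - y)) * l (x - z) = ∫⁻ y, u y * k (z - y) * l (x - z) := by
      intro z
      rw [lintegral_mul_const]
      exact (meas_cv hu hk).comp (measurable_const.prodMk measurable_id)
    simp only [h1]
    have hm2 : Measurable (fun p : X m × X m => u p.2 * k (p.1 - p.2) * l (x - p.1)) :=
      (meas_cv hu hk).mul (hl.comp (measurable_const.sub measurable_fst))
    rw [lintegral_lintegral_swap hm2.aemeasurable]
    refine lintegral_congr fun y => ?_
    have h2 : ∀ z, u y * k (z - y) * l (x - z) = u y * (k (z - y) * l (x - z)) := fun z =>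
      mul_assoc _ _ _
    simp only [h2]
    rw [lintegral_const_mul]
    · congr 1
      rw [← lintegral_add_right_eq_self (fun z => k (z - y) * l (x - z)) y]
      refine lintegral_congr fun z => ?_
      rw [add_sub_cancel_right, ← sub_sub, sub_right_comm]
    · exact (hk.comp (measurable_id.sub measurable_const)).mul
        (hl.comp (measurable_const.sub measurable_id))
  · unfold cv
    rw [lintegral_lintegral_swap (meas_cv hu hk).aemeasurable]
    have h1 : ∀ y, ∫⁻ x, u y * k (x - y) = u y * ∫⁻ x, k x := by
      intro y
      rw [lintegral_const_mul]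
      · rw [lintegral_sub_right_eq_self (fun x => k x) y]
      · exact hk.comp (measurable_id.sub measurable_const)
    simp only [h1]
    rw [lintegral_mul_const _ hu]

end Pool.Agent.H84.BD
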