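import Pool.Agent.H93.BD.Targets

/-! JEN: the normalisation which replaces dyadic pigeonholing (board bdc_modules). -/

open MeasureTheory
open scoped ENNReal NNReal

namespace Pool.Agent.H84.BD

open Pool.Agent.H93.BD

theorem pf_JEN : T_JEN := by
  intro ι s q hq a A hA
  rcases s.eq_empty_or_nonempty with rfl | hne
  · simp
  have hq0 : 0 < q := by linarith
  have h2q : 0 < 2 / q := by positivity
  set W := ∑ j ∈ s, A j ^ (2 / q) with hW
  have hpos : ∀ i ∈ s, A i ^ (2 / q) ≠ 0 := fun i hi => by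
    have h1 := (hA i hi).1
    intro h
    rcases ENNReal.rpow_eq_zero_iff.mp h with h2 | h2
    · exact h1 h2.1
    · exact (hA i hi).2 h2.1
  have hfin : ∀ i ∈ s, A i ^ (2 / q) ≠ ∞ := fun i hi =>
    ENNReal.rpow_ne_top_of_nonneg h2q.le (hA i hi).2
  have hW0 : W ≠ 0 := by
    obtain ⟨i, hi⟩ := hne
    intro h
    exact hpos i hi ((Finset.sum_eq_zero_iff.mp h) i hi)
  have hWt : W ≠ ∞ := ENNReal.sum_ne_top.mpr hfin
  have hmu : ∑ i ∈ s, A i ^ (2 / q) / W = 1 := by
    rw [Finset.sum_congr rfl (fun i _ => div_eq_mul_inv (A i ^ (2 / q)) W),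
      ← Finset.sum_mul, ← hW, ENNReal.mul_inv_cancel hW0 hWt]
  have key := ENNReal.rpow_arith_mean_le_arith_mean_rpow s (fun i => A i ^ (2 / q) / W)
    (fun i => (a i / A i) ^ (2 / q)) hmu (p := q / 2) (by linarith)
  have e1 : ∀ i ∈ s, a i ^ (2 / q) = W * (A i ^ (2 / q) / W * (a i / A i) ^ (2 / q)) := by
    intro i hi
    rw [← mul_assoc, ENNReal.mul_div_cancel hW0 hWt, ← ENNReal.mul_rpow_of_nonneg _ _ h2q.le,
      ENNReal.mul_div_cancel (hA i hi).1 (hA i hi).2]
  rw [Finset.sum_congr rfl e1, ← Finset.mul_sum]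
  refine mul_le_mul' le_rfl ?_
  have e2 : ∀ i ∈ s, A i ^ (2 / q) / W * ((a i / A i) ^ (2 / q)) ^ (q / 2)
      = A i ^ (2 / q) / W * (a i / A i) := by
    intro i _
    rw [← ENNReal.rpow_mul, show 2 / q * (q / 2) = 1 by field_simp, ENNReal.rpow_one]
  rw [Finset.sum_congr rfl e2] at key
  have h3 := ENNReal.rpow_le_rpow key h2q.le
  rw [← ENNReal.rpow_mul, show q / 2 * (2 / q) = 1 by field_simp, ENNReal.rpow_one] at h3
  exact h3

end Pool.Agent.H84.BD
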