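import Pool.Agent.H93.BD.Targets
import Pool.Agent.H93.BD.Targets2

/-! M0: the decoupling theorem in dimension `0` (board bdc_modules). -/

open MeasureTheory
open scoped ENNReal NNReal

namespace Pool.Agent.H84.BD

open Pool.Agent.H93.BD

theorem sum_rpow_sub {ι : Type} (T : Finset ι) (x : ι → ℝ≥0∞) (θ : ℝ) (h0 : 0 < θ) (h1 : θ ≤ 1) :
    (∑ t ∈ T, x t) ^ θ ≤ ∑ t ∈ T, x t ^ θ := by
  classical
  refine Finset.induction_on T ?_ ?_
  · simp [h0]
  · intro a s ha ih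
    rw [Finset.sum_insert ha, Finset.sum_insert ha]
    exact (ENNReal.rpow_add_le_add_rpow _ _ h0.le h1).trans (add_le_add le_rfl ih)

theorem pf_M0 (hFCT : T_FCT) : T_M0 := by
  intro p hp ε hε C0 R1 N M
  have hp0 : 0 < p := by linarith
  refine ⟨((M : ℝ) + 1) * 4 ^ N, by positivity, ?_⟩
  intro a ι T c g hc hcap hcard x0
  have hM : T.card ≤ M := by
    refine hcard 0 T (Finset.Subset.refl _) ?_
    intro t _
    rw [show (0 : E 0) - c t = 0 from Subsingleton.elim _ _, norm_zero]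
    positivity
  set S : Set (X 0) := {x : X 0 | ‖x.1 - x0.1‖ ≤ 4 ^ a ∧ |x.2 - x0.2| ≤ 4 ^ a} with hS
  -- weight on the region
  have hw : ∀ x ∈ S, 1 ≤ ENNReal.ofReal ((4 : ℝ) ^ N) * wt N (4 ^ a) (x - x0) := by
    intro x hx
    unfold wt
    rw [← ENNReal.ofReal_mul (by positivity), ← ENNReal.ofReal_one]
    refine ENNReal.ofReal_le_ofReal ?_
    have h4 : (0 : ℝ) < 4 ^ a := by positivity
    have h1 : 1 + ‖(x - x0).1‖ / 4 ^ a ≤ 2 := by
      have : ‖(x - x0).1‖ / 4 ^ a ≤ 1 := by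
        rw [div_le_one h4]; exact hx.1
      linarith
    have h2 : 1 + |(x - x0).2| / 4 ^ a ≤ 2 := by
      have : |(x - x0).2| / 4 ^ a ≤ 1 := by
        rw [div_le_one h4]; exact hx.2
      linarith
    have h1' : (1 + ‖(x - x0).1‖ / 4 ^ a) ^ N ≤ 2 ^ N := pow_le_pow_left₀ (by positivity) h1 N
    have h2' : (1 + |(x - x0).2| / 4 ^ a) ^ N ≤ 2 ^ N := pow_le_pow_left₀ (by positivity) h2 N
    have h3 : (2 ^ N : ℝ)⁻¹ ≤ ((1 + ‖(x - x0).1‖ / 4 ^ a) ^ N)⁻¹ :=
      inv_anti₀ (by positivity) h1'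
    have h4 : (2 ^ N : ℝ)⁻¹ ≤ ((1 + |(x - x0).2| / 4 ^ a) ^ N)⁻¹ :=
      inv_anti₀ (by positivity) h2'
    calc (1 : ℝ) = 4 ^ N * ((2 ^ N)⁻¹ * (2 ^ N)⁻¹) := by
          rw [show (4 : ℝ) = 2 * 2 by norm_num, mul_pow]; field_simp
      _ ≤ _ := by
          refine mul_le_mul_of_nonneg_left (mul_le_mul h3 h4 (by positivity) (by positivity))
            (by positivity)
  have hcont : ∀ t ∈ T, Continuous (FI (g t)) := fun t ht => (hFCT 0 (g t) (hcap t ht).int).1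
  have hmeas : ∀ t ∈ T, Measurable (fun x => ‖FI (g t) x‖ₑ ^ p) := fun t ht =>
    ((hcont t ht).measurable.enorm).pow_const p
  have hwm : Measurable (fun x : X 0 => wt N (4 ^ a) (x - x0)) := by
    unfold wt
    fun_prop
  set J : ι → ℝ≥0∞ := fun t => ∫⁻ x, ‖FI (g t) x‖ₑ ^ p * wt N (4 ^ a) (x - x0) with hJ
  -- pointwise
  have hpt : ∀ x, ‖∑ t ∈ T, FI (g t) x‖ₑ ^ p
      ≤ ENNReal.ofReal (((M : ℝ) + 1) ^ (p - 1)) * ∑ t ∈ T, ‖FI (g t) x‖ₑ ^ p := by
    intro x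
    calc ‖∑ t ∈ T, FI (g t) x‖ₑ ^ p ≤ (∑ t ∈ T, ‖FI (g t) x‖ₑ) ^ p :=
          ENNReal.rpow_le_rpow (enorm_sum_le _ _) hp0.le
      _ ≤ (T.card : ℝ≥0∞) ^ (p - 1) * ∑ t ∈ T, ‖FI (g t) x‖ₑ ^ p := by
          exact ENNReal.rpow_sum_le_const_mul_sum_rpow T (fun t => ‖FI (g t) x‖ₑ) (by linarith)
      _ ≤ _ := by
          refine mul_le_mul' ?_ le_rfl
          rw [← ENNReal.ofReal_rpow_of_nonneg (by positivity) (by linarith)]
          refine ENNReal.rpow_le_rpow ?_ (by linarith)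
          rw [← ENNReal.ofReal_natCast]
          refine ENNReal.ofReal_le_ofReal ?_
          have : (T.card : ℝ) ≤ M := by exact_mod_cast hM
          linarith
  calc ∫⁻ x in S, ‖∑ t ∈ T, FI (g t) x‖ₑ ^ p
      ≤ ∫⁻ x in S, ENNReal.ofReal (((M : ℝ) + 1) ^ (p - 1)) * (ENNReal.ofReal ((4 : ℝ) ^ N) *
          ∑ t ∈ T, ‖FI (g t) x‖ₑ ^ p * wt N (4 ^ a) (x - x0)) := by
        refine setLIntegral_mono' ?_ fun x hx => ?_
        · have h1 : MeasurableSet {x : X 0 | ‖x.1 - x0.1‖ ≤ 4 ^ a} :=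
            measurableSet_le (by fun_prop) measurable_const
          have h2 : MeasurableSet {x : X 0 | |x.2 - x0.2| ≤ 4 ^ a} :=
            measurableSet_le (by fun_prop) measurable_const
          exact h1.inter h2
        · refine (hpt x).trans (mul_le_mul' le_rfl ?_)
          rw [← Finset.sum_mul, mul_comm (∑ t ∈ T, _), ← mul_assoc]
          calc ∑ t ∈ T, ‖FI (g t) x‖ₑ ^ p = 1 * ∑ t ∈ T, ‖FI (g t) x‖ₑ ^ p := (one_mul _).symm
            _ ≤ _ := mul_le_mul' (hw x hx) le_rfl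
    _ ≤ ∫⁻ x, ENNReal.ofReal (((M : ℝ) + 1) ^ (p - 1)) * (ENNReal.ofReal ((4 : ℝ) ^ N) *
          ∑ t ∈ T, ‖FI (g t) x‖ₑ ^ p * wt N (4 ^ a) (x - x0)) := setLIntegral_le_lintegral _ _
    _ = ENNReal.ofReal (((M : ℝ) + 1) ^ (p - 1)) * (ENNReal.ofReal ((4 : ℝ) ^ N) *
          ∑ t ∈ T, J t) := by
        have hmt : ∀ t ∈ T, Measurable (fun x => ‖FI (g t) x‖ₑ ^ p * wt N (4 ^ a) (x - x0)) :=
          fun t ht => (hmeas t ht).mul hwm
        rw [lintegral_const_mul, lintegral_const_mul, lintegral_finsetSum _ hmt]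
        · exact Finset.measurable_sum _ hmt
        · exact (Finset.measurable_sum _ hmt).const_mul _
    _ ≤ (ENNReal.ofReal ((((M : ℝ) + 1) * 4 ^ N) * 2 ^ (ε * a))) ^ p *
          (∑ t ∈ T, J t ^ (2 / p)) ^ (p / 2) := by
        rw [← mul_assoc]
        refine mul_le_mul' ?_ ?_
        · rw [← ENNReal.ofReal_mul (by positivity),
            ENNReal.ofReal_rpow_of_nonneg (by positivity) hp0.le]
          refine ENNReal.ofReal_le_ofReal ?_
          have hM1 : (1 : ℝ) ≤ (M : ℝ) + 1 := by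
            have : (0 : ℝ) ≤ M := Nat.cast_nonneg M
            linarith
          have h4N : (1 : ℝ) ≤ 4 ^ N := one_le_pow₀ (by norm_num)
          have h2 : (1 : ℝ) ≤ 2 ^ (ε * a) := Real.one_le_rpow (by norm_num) (by positivity)
          rw [Real.mul_rpow (by positivity) (by positivity),
            Real.mul_rpow (by positivity) (by positivity)]
          have h5 : ((M : ℝ) + 1) ^ (p - 1) ≤ ((M : ℝ) + 1) ^ p :=
            Real.rpow_le_rpow_of_exponent_le hM1 (by linarith)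
          have h6 : ((4 : ℝ) ^ N) ≤ ((4 : ℝ) ^ N) ^ p := by
            calc ((4 : ℝ) ^ N) = ((4 : ℝ) ^ N) ^ (1 : ℝ) := (Real.rpow_one _).symm
              _ ≤ _ := Real.rpow_le_rpow_of_exponent_le h4N (by linarith)
          have h7 : (1 : ℝ) ≤ ((2 : ℝ) ^ (ε * a)) ^ p := Real.one_le_rpow h2 hp0.le
          calc ((M : ℝ) + 1) ^ (p - 1) * 4 ^ N ≤ ((M : ℝ) + 1) ^ p * ((4 : ℝ) ^ N) ^ p :=
                mul_le_mul h5 h6 (by positivity) (by positivity)
            _ = ((M : ℝ) + 1) ^ p * ((4 : ℝ) ^ N) ^ p * 1 := (mul_one _).symm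
            _ ≤ _ := mul_le_mul_of_nonneg_left h7 (by positivity)
        · have h8 := sum_rpow_sub T J (2 / p) (by positivity) (by rw [div_le_one hp0]; exact hp)
          have h9 := ENNReal.rpow_le_rpow h8 (show 0 ≤ p / 2 by positivity)
          rwa [← ENNReal.rpow_mul, show 2 / p * (p / 2) = 1 by field_simp, ENNReal.rpow_one] at h9

end Pool.Agent.H84.BD
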