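import Pool.Agent.H93.BD.Targets
import Pool.Agent.H93.BD.Targets2

/-! ORA: orthogonality step for `AA` (board bdc_modules). -/

open MeasureTheory
open scoped ENNReal NNReal

namespace Pool.Agent.H84.BD

open Pool.Agent.H93.BD

theorem pf_ORA (hORX : T_ORX) (hGRD : T_GRD) (hCAP : T_CAP) (hSUB : T_SUB) : T_ORA := by
  intro m p C0 hp hC0
  obtain ⟨M, hM⟩ := hGRD m (C0 + m + 1 + 1)
  obtain ⟨CX, hCX⟩ := hORX m (C0 + m + 1) M
  have hp0 : 0 < p := by linarith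
  refine ⟨|CX| ^ (p / 2), ?_⟩
  intro a b l hlb hba g hg τ
  have hb2 : b ≤ 2 * b := by omega
  have hl2 : l ≤ 2 * b := by omega
  have hR : (0 : ℝ) < 2 ^ (2 * b) := by positivity
  -- one cell
  have hone : ∀ α : Fin m → ℤ, ∀ x : X m,
      cv (fun z => ‖fF a b g α z‖ₑ ^ (2 : ℝ)) (kw m (2 ^ (2 * b))) x
        ≤ ENNReal.ofReal |CX| * ∑ β ∈ sub m (2 * b) b α,
            cv (fun z => ‖fF a (2 * b) g β z‖ₑ ^ (2 : ℝ)) (kw m (2 ^ (2 * b))) x := by
    intro α x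
    have hG : ∀ β : Fin m → ℤ, ∃ G : X m → ℂ, β ∈ sub m (2 * b) b α →
        InCap (C0 + m + 1) (1 / 2 ^ (2 * b)) (pt (2 * b) β) G ∧ ∀ x, fF a (2 * b) g β x = FI G x := by
      intro β
      by_cases hβ : β ∈ sub m (2 * b) b α
      · obtain ⟨G, h1, h2⟩ := hCAP m C0 hC0 a (2 * b) hba g hg β
          (Finset.mem_filter.mp hβ).1
        exact ⟨G, fun _ => ⟨h1, h2⟩⟩
      · exact ⟨0, fun h => absurd h hβ⟩
    choose G hG using hG
    have h1 := hCX (2 ^ (2 * b)) hR _ (sub m (2 * b) b α) (pt (2 * b)) G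
      (fun β hβ => ⟨(hG β hβ).1.int, fun z hz => by
        have := ((hG β hβ).1.supp z hz).1
        rwa [mul_one_div] at this⟩)
      (fun ξ B' _ hB' => hM (2 * b) ξ B' hB') x
    have e1 : ∀ z, fF a b g α z = ∑ β ∈ sub m (2 * b) b α, FI (G β) z := by
      intro z
      rw [(hSUB m a (2 * b) b hb2 hba).1 g α z]
      exact Finset.sum_congr rfl fun β hβ => (hG β hβ).2 z
    simp only [e1]
    refine h1.trans (mul_le_mul' (ENNReal.ofReal_le_ofReal (le_abs_self _)) (le_of_eq ?_))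
    refine Finset.sum_congr rfl fun β hβ => ?_
    have e2 : (fun z => ‖FI (G β) z‖ₑ ^ (2 : ℝ)) = fun z => ‖fF a (2 * b) g β z‖ₑ ^ (2 : ℝ) := by
      funext z
      rw [(hG β hβ).2 z]
    rw [e2]
  unfold AA
  rw [← lintegral_const_mul' _ _ ENNReal.ofReal_ne_top]
  refine lintegral_mono fun x => ?_
  have he : (0 : ℝ) ≤ p / (2 * (m + 1)) := by positivity
  have hfac : ∀ i : Fin (m + 1),
      (∑ α ∈ sub m b l (τ i), cv (fun z => ‖fF a b g α z‖ₑ ^ (2 : ℝ)) (kw m (2 ^ (2 * b))) x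
          ^ ((2 : ℝ) / 2)) ^ (p / (2 * (m + 1)))
        ≤ ENNReal.ofReal |CX| ^ (p / (2 * (m + 1))) *
          (∑ α ∈ sub m (2 * b) l (τ i),
            cv (fun z => ‖fF a (2 * b) g α z‖ₑ ^ (2 : ℝ)) (kw m (2 ^ (2 * b))) x
              ^ ((2 : ℝ) / 2)) ^ (p / (2 * (m + 1))) := by
    intro i
    rw [← ENNReal.mul_rpow_of_nonneg _ _ he]
    refine ENNReal.rpow_le_rpow ?_ he
    rw [div_self (two_ne_zero : (2 : ℝ) ≠ 0)]
    simp only [ENNReal.rpow_one]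
    rw [(hSUB m (2 * b) b l hlb hb2).2.1 ℝ≥0∞ _ (τ i), Finset.mul_sum]
    exact Finset.sum_le_sum fun α _ => hone α x
  refine (Finset.prod_le_prod' fun i _ => hfac i).trans (le_of_eq ?_)
  rw [Finset.prod_mul_distrib, Finset.prod_const, Finset.card_univ, Fintype.card_fin]
  congr 1
  rw [← ENNReal.rpow_natCast, ← ENNReal.rpow_mul,
    ENNReal.ofReal_rpow_of_nonneg (abs_nonneg _) (by positivity)]
  congr 2
  push_cast
  field_simp

end Pool.Agent.H84.BD
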