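import Pool.Agent.H93.BD.Targets

/-! TRA: integration in the centre of the parallelepiped (board bdc_modules). -/

open MeasureTheory
open scoped ENNReal NNReal

namespace Pool.Agent.H84.BD

open Pool.Agent.H93.BD

theorem haarX (m : ℕ) : (volume : Measure (X m)).IsAddHaarMeasure := by
  rw [Measure.volume_eq_prod]
  infer_instance

theorem continuous_Am {m : ℕ} (b : Fin (m + 1) → E m) : Continuous (fun s => Am b s) := by
  unfold Am
  fun_prop

theorem vol_Qc (n : ℕ) (ρ : ℝ) (hρ : 0 < ρ) :
    volume (Qc n ρ) = ENNReal.ofReal ((2 * ρ) ^ n) := by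
  unfold Qc
  rw [Real.volume_Icc_pi]
  simp only [sub_neg_eq_add, Finset.prod_const, Finset.card_univ, Fintype.card_fin]
  rw [← ENNReal.ofReal_pow (by positivity), two_mul]

theorem pf_TRA : T_TRA := by
  intro m b ρ hρ h hm
  have := haarX m
  have hc : Measurable (fun z : X m × (Fin (m + 1) → ℝ) => h (z.1 + Am b (0 + z.2))) := by
    refine hm.comp ?_
    have h1 := (continuous_Am b).measurable
    fun_prop
  unfold av
  have hK0 : ENNReal.ofReal ((2 * ρ) ^ (m + 1)) ≠ 0 := by
    rw [Ne, ENNReal.ofReal_eq_zero, not_le]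
    positivity
  rw [lintegral_const_mul _ (by exact (Measurable.lintegral_prod_right' hc)),
    lintegral_lintegral_swap hc.aemeasurable]
  have e : ∀ s : Fin (m + 1) → ℝ, ∫⁻ x, h (x + Am b (0 + s)) = ∫⁻ x, h x := fun s =>
    lintegral_add_right_eq_self h _
  simp only [e]
  rw [lintegral_const, Measure.restrict_apply MeasurableSet.univ, Set.univ_inter, vol_Qc _ _ hρ,
    mul_comm (∫⁻ x, h x), ← mul_assoc, ENNReal.inv_mul_cancel hK0 ENNReal.ofReal_ne_top, one_mul]

end Pool.Agent.H84.BD
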