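import Mathlib

/-! Definitions for the functional ball inflation inequality (decoupling for the paraboloid,
MP_ee74d2_an). -/

open MeasureTheory Set
open scoped ENNReal NNReal RealInnerProductSpace

namespace Pool.Agent.H84.BD

noncomputable section

/-- `ℝ^d` -/
abbrev E (d : ℕ) := EuclideanSpace ℝ (Fin d)

/-- `ℝ^d × ℝ` (sup metric) -/
abbrev Z (d : ℕ) := E d × ℝ

/-- the kernel `r^{-(d+1)} (1+|z|/r)^{-N}` -/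
def kr {d : ℕ} (N : ℕ) (r : ℝ) (z : Z d) : ℝ := (r ^ (d + 1) * (1 + ‖z‖ / r) ^ N)⁻¹

/-- average at scale `r` -/
def av {d : ℕ} (N : ℕ) (r : ℝ) (F : Z d → ℝ≥0∞) (z : Z d) : ℝ≥0∞ :=
  ∫⁻ z', ENNReal.ofReal (kr N r (z - z')) * F z'

/-- the point with coordinates `c` in the basis `(v_i, 1)` -/
def Pv {d n : ℕ} (v : Fin n → E d) (c : Fin n → ℝ) : Z d := ∑ i, c i • ((v i, 1) : Z d)

/-- functional ball inflation -/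
def T_BI : Prop := ∀ (d N : ℕ) (C0 Cv Cb th sg ε : ℝ), 1 ≤ d → d + 2 ≤ N → 0 < th → th ≤ 1 →
  0 < sg → sg ≤ 1 → 0 < ε → ∃ C : ℝ, 0 < C ∧ ∀ (r1 r2 : ℝ) (ι : Type) (T : Fin (d + 1) → Finset ι)
  (v : ι → E d) (F : ι → Z d → ℝ≥0∞), 0 < r1 → r1 ≤ r2 → (∀ i, ∀ a ∈ T i, ‖v a‖ ≤ Cv) →
  (∀ i, ∀ a ∈ T i, Measurable (F a)) →
  (∀ i, ∀ a ∈ T i, ∀ (z h : Z d) (s : ℝ), |s| ≤ r2 → ‖h‖ ≤ r1 →
    F a (z + s • ((v a, 1) : Z d) + h) ≤ ENNReal.ofReal C0 * F a z) →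
  (∀ a : Fin (d + 1) → ι, (∀ i, a i ∈ T i) → ∀ c : Fin (d + 1) → ℝ,
    ‖c‖ ≤ Cb * ‖Pv (fun i => v (a i)) c‖) →
  (∫⁻ z, ∏ i, (∑ a ∈ T i, F a z ^ th) ^ (sg / (th * d))) ≤
    ENNReal.ofReal (C * (r2 / r1) ^ ε) *
    ∫⁻ z, ∏ i, (∑ a ∈ T i, av N r2 (F a) z ^ th) ^ (sg / (th * d))

end

end Pool.Agent.H84.BD
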